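import Mathlib
import Pool.Agent.Lib.MP_64d474_lc.S3.Hit35b

/-!
# Explicit tests from the restriction theorem

`tests n N s r` is the set of the integer points `pt y z + w` with `y_j ≤ N (n - 1)`, `z_j ≤ N`
(`j < s`), where `w` has at most `r` nonzero coordinates, all at most `N`.
-/

set_option autoImplicit false

namespace Pool.Agent.Lib.MP_64d474_lc.SK

open MvPolynomial Pool.Agent.Lib.MP_64d474_lc.S3

/-- One summand `a_i e_(k_i)`. -/
def spv1 {n N : ℕ} (o : Option (Fin n × Fin N)) (k : Fin n) : ℤ :=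
  match o with
  | none => 0
  | some p => if p.1 = k then ((p.2 : ℕ) : ℤ) + 1 else 0

/-- The vector `∑ i, a_i e_(k_i)`, where `c i` is `some (k_i, a_i - 1)` or `none`. -/
def spv {n N r : ℕ} (c : Fin r → Option (Fin n × Fin N)) : Fin n → ℤ :=
  fun k => ∑ i, spv1 (c i) k

/-- The tests. -/
def tests (n N s r : ℕ) : Finset (Fin n → ℤ) :=
  Finset.univ.image fun p : ((Fin s → Fin (N * (n - 1) + 1)) × (Fin s → Fin (N + 1))) ×
      (Fin r → Option (Fin n × Fin N)) =>
    pt (fun i => ((p.1.1 i : ℕ) : ℤ)) (fun i => ((p.1.2 i : ℕ) : ℤ)) + spv p.2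

theorem card_tests (n N s r : ℕ) :
    (tests n N s r).card ≤ ((N * (n - 1) + 1) * (N + 1)) ^ s * (n * N + 1) ^ r := by
  refine Finset.card_image_le.trans ?_
  simp [Fintype.card_prod, mul_pow]

/-- Every vector with values in `[0, N]` and at most `r` nonzero coordinates is of the form
`spv c`. -/
theorem exists_spv {n N : ℕ} (I : Finset (Fin n)) : ∀ (r : ℕ), I.card ≤ r →
    ∀ w : Fin n → ℕ, (∀ k, w k ≤ N) → (∀ k, k ∉ I → w k = 0) →
    ∃ c : Fin r → Option (Fin n × Fin N), spv c = fun k => ((w k : ℕ) : ℤ) := by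
  classical
  induction I using Finset.induction_on with
  | empty =>
    intro r _ w _ h0
    refine ⟨fun _ => none, ?_⟩
    funext k
    simp [spv, spv1, h0 k (Finset.notMem_empty k)]
  | insert a I ha ih =>
    intro r hr w hw h0
    rw [Finset.card_insert_of_notMem ha] at hr
    obtain ⟨r, rfl⟩ : ∃ r', r = r' + 1 := ⟨r - 1, by omega⟩
    obtain ⟨c, hc⟩ := ih r (by omega) (fun k => if k = a then 0 else w k)
      (fun k => by split_ifs <;> simp [hw]) (fun k hk => by
        by_cases hka : k = a
        · simp [hka]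
        · simp only [hka, if_false]
          exact h0 k (by simp [hka, hk]))
    have hcons : ∀ (o : Option (Fin n × Fin N)) (k : Fin n),
        spv (Fin.cons o c : Fin (r + 1) → Option (Fin n × Fin N)) k = spv1 o k + spv c k := by
      intro o k
      simp only [spv, Fin.sum_univ_succ, Fin.cons_zero, Fin.cons_succ]
    by_cases hwa : w a = 0
    · refine ⟨Fin.cons none c, ?_⟩
      funext k
      rw [hcons, congrFun hc k]
      by_cases hka : k = a
      · simp [spv1, hka, hwa]
      · simp [spv1, hka]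
    · refine ⟨Fin.cons (some (a, ⟨w a - 1, by have := hw a; omega⟩)) c, ?_⟩
      funext k
      rw [hcons, congrFun hc k]
      by_cases hka : k = a
      · subst hka
        simp only [spv1, if_true]
        have : 1 ≤ w k := Nat.one_le_iff_ne_zero.2 hwa
        push_cast [Nat.cast_sub this]
        ring
      · simp [spv1, hka, Ne.symm hka]

/-- The generic test: `pt y z + ∑ i, w_i e_i`. -/
noncomputable def tX (F : Type*) [Field F] (n s : ℕ) (I : Finset (Fin n)) (k : Fin n) :
    MvPolynomial ((Fin s ⊕ Fin s) ⊕ Fin n) F :=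
  rename Sum.inl (genX F n s k) + if k ∈ I then X (Sum.inr k) else 0

theorem eval_tX {F : Type*} [Field F] {n s : ℕ} (I : Finset (Fin n)) (f : MvPolynomial (Fin n) F)
    (y z : Fin s → F) (w : Fin n → F) (hw : ∀ k, k ∉ I → w k = 0) :
    eval (Sum.elim (Sum.elim y z) w) (aeval (tX F n s I) f) = eval (pt y z + w) f := by
  classical
  have h1 := MvPolynomial.comp_aeval_apply (tX F n s I)
    (aeval (Sum.elim (Sum.elim y z) w) : MvPolynomial ((Fin s ⊕ Fin s) ⊕ Fin n) F →ₐ[F] F) f
  rw [aeval_eq_eval] at h1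
  rw [h1]
  have h2 : (fun i => (eval (Sum.elim (Sum.elim y z) w)) (tX F n s I i)) = pt y z + w := by
    funext k
    rw [Pi.add_apply, tX, map_add, eval_rename]
    congr 1
    · rw [genX_eq_pt]
      have h3 := map_pt (m := n) (eval ((Sum.elim (Sum.elim y z) w) ∘ Sum.inl) :
        MvPolynomial (Fin s ⊕ Fin s) F →+* F) (fun i => X (Sum.inl i)) (fun i => X (Sum.inr i)) k
      rw [h3]
      simp
    · by_cases hk : k ∈ I
      · rw [if_pos hk, eval_X]; simp
      · rw [if_neg hk, map_zero, hw k hk]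
  rw [h2, aeval_eq_eval]

theorem degreeOf_inr_rename {F : Type*} [Field F] {n s : ℕ} (k i : Fin n) :
    (rename Sum.inl (genX F n s k) : MvPolynomial ((Fin s ⊕ Fin s) ⊕ Fin n) F).degreeOf
      (Sum.inr i) = 0 := by
  classical
  rw [← nonpos_iff_eq_zero, degreeOf_le_iff]
  intro m hm
  have hs := support_rename_of_injective (R := F) (p := genX F n s k)
    (Sum.inl_injective : Function.Injective (Sum.inl : Fin s ⊕ Fin s → (Fin s ⊕ Fin s) ⊕ Fin n))
  rw [hs, Finset.mem_image] at hm
  obtain ⟨m', -, rfl⟩ := hm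
  rw [Finsupp.mapDomain_notin_range]
  simp

theorem degreeOf_tX_inr {F : Type*} [Field F] {n s : ℕ} (I : Finset (Fin n))
    (f : MvPolynomial (Fin n) F) (i : Fin n) :
    (aeval (tX F n s I) f).degreeOf (Sum.inr i) ≤ f.totalDegree := by
  classical
  refine (degreeOf_aeval_le _ _ 1 (fun k => ?_) f).trans (by simp)
  rw [tX]
  refine (degreeOf_add_le _ _ _).trans (max_le ?_ ?_)
  · rw [degreeOf_inr_rename]
    exact Nat.zero_le _
  · split_ifs
    · rw [degreeOf_X]; split_ifs <;> simp
    · simp

theorem degreeOf_tX_inr_zero {F : Type*} [Field F] {n s : ℕ} (I : Finset (Fin n))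
    (f : MvPolynomial (Fin n) F) (i : Fin n) (hi : i ∉ I) :
    (aeval (tX F n s I) f).degreeOf (Sum.inr i) = 0 := by
  classical
  rw [← nonpos_iff_eq_zero]
  refine (degreeOf_aeval_le _ _ 0 (fun k => ?_) f).trans (by simp)
  rw [tX]
  refine (degreeOf_add_le _ _ _).trans (max_le ?_ ?_)
  · rw [degreeOf_inr_rename]
  · split_ifs with hk
    · rw [degreeOf_X]
      have : (Sum.inr i : (Fin s ⊕ Fin s) ⊕ Fin n) ≠ Sum.inr k := by
        rintro h1
        exact hi (Sum.inr_injective h1 ▸ hk)
      simp [this]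
    · simp

theorem degreeOf_tX_inl {F : Type*} [Field F] {n s : ℕ} (I : Finset (Fin n))
    (f : MvPolynomial (Fin n) F) (j : Fin s ⊕ Fin s) (b : ℕ)
    (hb : ∀ k, (genX F n s k).degreeOf j ≤ b) :
    (aeval (tX F n s I) f).degreeOf (Sum.inl j) ≤ f.totalDegree * b := by
  classical
  refine degreeOf_aeval_le _ _ b (fun k => ?_) f
  rw [tX]
  refine (degreeOf_add_le _ _ _).trans (max_le ?_ ?_)
  · rw [degreeOf_rename_of_injective Sum.inl_injective]
    exact hb k
  · split_ifs
    · rw [degreeOf_X]; simp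
    · simp

theorem degreeOf_genX_inr {F : Type*} [Field F] {m s : ℕ} (k : Fin m) (i : Fin s) :
    (genX F m s k).degreeOf (Sum.inr i) ≤ 1 := by
  have h := degreeOf_gen_inr (s := s) (X k : MvPolynomial (Fin m) F) i
  rw [gen, aeval_X, totalDegree_X] at h
  exact h

theorem degreeOf_genX_inl {F : Type*} [Field F] {m s : ℕ} (k : Fin m) (i : Fin s) :
    (genX F m s k).degreeOf (Sum.inl i) ≤ m - 1 := by
  have h := degreeOf_gen_inl (s := s) (X k : MvPolynomial (Fin m) F) i
  rw [gen, aeval_X, totalDegree_X, one_mul] at h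
  exact h

/-- If `f` is nonzero at `o + w` for some `w` supported on `I` as soon as some nonzero polynomials
of degree at most `s` are nonzero at `o`, then `f` is nonzero at one of the tests. -/
theorem exists_test {F : Type*} [Field F] [CharZero F] {n N s r : ℕ}
    {f : MvPolynomial (Fin n) F} (hf : f.totalDegree ≤ N)
    (I : Finset (Fin n)) (hI : I.card ≤ r) (A : Multiset (MvPolynomial (Fin n) F))
    (hA : ∀ P ∈ A, P ≠ 0 ∧ P.totalDegree ≤ s)
    (h : ∀ o : Fin n → F, (∀ P ∈ A, eval o P ≠ 0) →
      ∃ w : Fin n → F, (∀ k, k ∉ I → w k = 0) ∧ eval (o + w) f ≠ 0) :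
    ∃ x ∈ tests n N s r, eval (fun k => ((x k : ℤ) : F)) f ≠ 0 := by
  classical
  -- a good point `o`
  have hg := gen_prod_ne_zero (s := s) A hA
  obtain ⟨x, hx⟩ : ∃ x : Fin s ⊕ Fin s → F, eval x (gen F n s A.prod) ≠ 0 := by
    by_contra hno
    exact hg (MvPolynomial.funext fun x => by
      rw [map_zero]; by_contra hx; exact hno ⟨x, hx⟩)
  rw [eval_gen] at hx
  obtain ⟨w, hw, hne⟩ := h (pt (fun i => x (Sum.inl i)) (fun i => x (Sum.inr i))) (by
    intro P hP h0
    apply hx
    rw [map_multiset_prod, Multiset.prod_eq_zero_iff, Multiset.mem_map]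
    exact ⟨P, hP, h0⟩)
  -- the polynomial in the seeds is nonzero
  have hpoly : aeval (tX F n s I) f ≠ 0 := by
    intro h0
    apply hne
    rw [← eval_tX I f _ _ w hw, h0, map_zero]
  by_contra hno
  push Not at hno
  apply hpoly
  refine eq_zero_of_eval_zero_at_prod_finset (aeval (tX F n s I) f)
    (Sum.elim (Sum.elim (fun _ => (Finset.range (N * (n - 1) + 1)).image (fun a : ℕ => (a : F)))
      (fun _ => (Finset.range (N + 1)).image (fun a : ℕ => (a : F))))
      (fun k => if k ∈ I then (Finset.range (N + 1)).image (fun a : ℕ => (a : F)) else {0})) ?_ ?_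
  · rintro ((i | i) | i)
    · simp only [Sum.elim_inl]
      rw [Finset.card_image_of_injective _ Nat.cast_injective, Finset.card_range]
      exact Nat.lt_succ_of_le ((degreeOf_tX_inl I f _ _ (fun k => degreeOf_genX_inl k i)).trans
        (Nat.mul_le_mul_right _ hf))
    · simp only [Sum.elim_inl, Sum.elim_inr]
      rw [Finset.card_image_of_injective _ Nat.cast_injective, Finset.card_range]
      refine Nat.lt_succ_of_le ((degreeOf_tX_inl I f _ 1 (fun k => degreeOf_genX_inr k i)).trans ?_)
      simpa using hf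
    · simp only [Sum.elim_inr]
      split_ifs with hi
      · rw [Finset.card_image_of_injective _ Nat.cast_injective, Finset.card_range]
        exact Nat.lt_succ_of_le ((degreeOf_tX_inr I f i).trans hf)
      · rw [Finset.card_singleton, degreeOf_tX_inr_zero I f i hi]
        exact Nat.one_pos
  · intro x hx
    have hl : ∀ i : Fin s, ∃ a : Fin (N * (n - 1) + 1),
        ((a : ℕ) : F) = x (Sum.inl (Sum.inl i)) := by
      intro i
      have := hx (Sum.inl (Sum.inl i))
      simp only [Sum.elim_inl, Finset.mem_image, Finset.mem_range] at this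
      obtain ⟨a, ha, ha2⟩ := this
      exact ⟨⟨a, ha⟩, ha2⟩
    have hr : ∀ i : Fin s, ∃ a : Fin (N + 1), ((a : ℕ) : F) = x (Sum.inl (Sum.inr i)) := by
      intro i
      have := hx (Sum.inl (Sum.inr i))
      simp only [Sum.elim_inl, Sum.elim_inr, Finset.mem_image, Finset.mem_range] at this
      obtain ⟨a, ha, ha2⟩ := this
      exact ⟨⟨a, ha⟩, ha2⟩
    have hq : ∀ k : Fin n, ∃ a : ℕ, a ≤ N ∧ (k ∉ I → a = 0) ∧ ((a : ℕ) : F) = x (Sum.inr k) := by
      intro k
      have := hx (Sum.inr k)
      simp only [Sum.elim_inr] at this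
      split_ifs at this with hk
      · simp only [Finset.mem_image, Finset.mem_range] at this
        obtain ⟨a, ha, ha2⟩ := this
        exact ⟨a, by omega, fun h1 => absurd hk h1, ha2⟩
      · rw [Finset.mem_singleton] at this
        exact ⟨0, Nat.zero_le _, fun _ => rfl, by rw [this, Nat.cast_zero]⟩
    choose p hp using hl
    choose q hq' using hr
    choose v hv1 hv2 hv3 using hq
    obtain ⟨c, hc⟩ := exists_spv (N := N) I r hI v hv1 hv2
    have h1 := hno (pt (fun i => ((p i : ℕ) : ℤ)) (fun i => ((q i : ℕ) : ℤ)) + spv c)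
      (Finset.mem_image.2 ⟨((p, q), c), Finset.mem_univ _, rfl⟩)
    have h2 : (fun k => (((pt (m := n) (fun i => ((p i : ℕ) : ℤ)) (fun i => ((q i : ℕ) : ℤ)) +
        spv c) k : ℤ) : F)) = pt (fun i => x (Sum.inl (Sum.inl i)))
          (fun i => x (Sum.inl (Sum.inr i))) + fun k => x (Sum.inr k) := by
      funext k
      rw [Pi.add_apply, Pi.add_apply, Int.cast_add]
      have h3 := map_pt (Int.castRingHom F) (m := n)
        (fun i => ((p i : ℕ) : ℤ)) (fun i => ((q i : ℕ) : ℤ)) k
      simp only [eq_intCast, Int.cast_natCast] at h3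
      rw [h3, congrFun hc k, Int.cast_natCast, hv3 k]
      congr 2
      · funext i; exact hp i
      · funext i; exact hq' i
    rw [h2] at h1
    have h4 := eval_tX I f (fun i => x (Sum.inl (Sum.inl i))) (fun i => x (Sum.inl (Sum.inr i)))
      (fun k => x (Sum.inr k)) (fun k hk => by rw [← hv3 k, hv2 k hk, Nat.cast_zero])
    rw [← h4] at h1
    have h5 : x = Sum.elim (Sum.elim (fun i => x (Sum.inl (Sum.inl i)))
        (fun i => x (Sum.inl (Sum.inr i)))) (fun k => x (Sum.inr k)) := by
      funext j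
      rcases j with (j | j) | j <;> rfl
    rw [h5]
    exact h1

end Pool.Agent.Lib.MP_64d474_lc.SK
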